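import Pool.Agent.W188.EM.Stm
import Pool.Agent.W188.GP.Stm

/-! EM-COAV (helper168, for helper188): discrete averages over N lines and the N-th Fourier coefficient -/

set_option autoImplicit false

open Complex MeasureTheory Set Filter Topology

namespace Pool.Agent.W168.EM

open Pool.Agent.W188.QS Pool.Agent.W188.GP Pool.Agent.W188.EM

/-- the condition for being a sample point -/
theorem ww_iff (h1 : StTau) (h3 : StLine) (N : ℕ) (γ t : ℝ) (ht : 100 ≤ t) :
    ww (XX (cp 100) ^ N * cexp (2 * Real.pi * N * γ * I)) N (cp t) = 1 ↔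
      ∃ m : ℤ, (N : ℝ) * (vv t - γ) = m := by
  obtain ⟨-, -, -, -, -, -, -, -, -, -, hX, -, -⟩ := h1
  have hn : ‖XX (cp 100)‖ = 1 := h3.2.1 100
  have h0 : XX (cp 100) ≠ 0 := by
    intro h
    rw [h, norm_zero] at hn
    exact zero_ne_one hn
  unfold ww
  rw [hX t ht]
  have e1 : XX (cp 100) ^ N * cexp (2 * Real.pi * N * γ * I) *
      (XX (cp 100) * cexp (2 * Real.pi * vv t * I))⁻¹ ^ N =
      cexp (2 * Real.pi * I * (N * (γ - vv t))) := by
    rw [mul_inv, mul_pow, ← Complex.exp_neg, ← Complex.exp_nat_mul]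
    have e2 : XX (cp 100) ^ N * (XX (cp 100))⁻¹ ^ N = 1 := by
      rw [← mul_pow, mul_inv_cancel₀ h0, one_pow]
    calc XX (cp 100) ^ N * cexp (2 * Real.pi * N * γ * I) *
        ((XX (cp 100))⁻¹ ^ N * cexp (N * -(2 * Real.pi * vv t * I)))
        = (XX (cp 100) ^ N * (XX (cp 100))⁻¹ ^ N) *
          (cexp (2 * Real.pi * N * γ * I) * cexp (N * -(2 * Real.pi * vv t * I))) := by ring
      _ = cexp (2 * Real.pi * I * (N * (γ - vv t))) := by
          rw [e2, one_mul, ← Complex.exp_add]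
          congr 1
          ring
  rw [e1, Complex.exp_eq_one_iff]
  have h2pi : (2 * (Real.pi : ℂ) * I) ≠ 0 := Complex.two_pi_I_ne_zero
  constructor
  · rintro ⟨n, hn⟩
    refine ⟨-n, ?_⟩
    have h4 : (N : ℂ) * (γ - vv t) = n := by
      apply mul_left_cancel₀ h2pi
      rw [hn]
      ring
    have h5 : (((N : ℝ) * (γ - vv t) : ℝ) : ℂ) = ((n : ℝ) : ℂ) := by
      push_cast
      exact h4
    have h6 := Complex.ofReal_injective h5
    push_cast
    linarith
  · rintro ⟨m, hm⟩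
    refine ⟨-m, ?_⟩
    have h5 : (N : ℝ) * (γ - vv t) = -m := by linarith
    have h4 : (N : ℂ) * (γ - vv t) = -m := by
      have := congrArg (fun x : ℝ => (x : ℂ)) h5
      push_cast at this
      exact this
    rw [h4]
    push_cast
    ring

theorem norm_c (h3 : StLine) (N : ℕ) (γ : ℝ) :
    ‖XX (cp 100) ^ N * cexp (2 * Real.pi * N * γ * I)‖ = 1 := by
  rw [norm_mul, norm_pow, h3.2.1 100, one_pow, one_mul]
  have : (2 * (Real.pi : ℂ) * N * γ * I) = ((2 * Real.pi * N * γ : ℝ) : ℂ) * I := by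
    push_cast; ring
  rw [this, Complex.norm_exp_ofReal_mul_I]

/-- the sum over the sample points of `N` lines -/
theorem sum_eq (h1 : StTau) (h3 : StLine) (N : ℕ) (hN : 1 ≤ N) (f : ℝ → ℝ) (a b γ : ℝ) (ha : 100 < a)
    (hγ : ∀ m : ℤ, (N : ℝ) * (vv b - γ) ≠ m) :
    ∑ᶠ t ∈ PP (XX (cp 100) ^ N * cexp (2 * Real.pi * N * γ * I)) N ∩ Ioo a b, f t / lam t =
    ∑ j ∈ Finset.range N, ∑ n ∈ nd ((j : ℝ) / N + γ) a b,
      f (tau (n + ((j : ℝ) / N + γ))) / lamE (tau (n + ((j : ℝ) / N + γ))) := by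
  have hc := norm_c h3 N γ
  have hiff := ww_iff h1 h3 N γ
  set c := XX (cp 100) ^ N * cexp (2 * Real.pi * N * γ * I) with hcdef
  obtain ⟨-, -, -, -, -, htv, hvt, htm, -, -, hX, hlam, hnd⟩ := h1
  have hfin : (PP c N ∩ Ioo a b).Finite :=
    (h3.2.2.2.2.2.2.2.2.2 c N hc hN b).subset (fun t ht => ⟨ht.1, ht.2.2.le⟩)
  have hN0 : (N : ℝ) ≠ 0 := by
    have : (0 : ℝ) < N := by exact_mod_cast hN
    exact this.ne'
  have hNz : (N : ℤ) ≠ 0 := by
    intro h
    apply hN0
    exact_mod_cast h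
  rw [finsum_mem_eq_finite_toFinset_sum _ hfin, Finset.sum_sigma']
  symm
  refine Finset.sum_bij (fun (p : Σ _ : ℕ, ℤ) _ => tau ((p.2 : ℝ) + ((p.1 : ℝ) / N + γ))) ?_ ?_ ?_ ?_
  · rintro ⟨j, n⟩ hp
    rw [Finset.mem_sigma, Finset.mem_range] at hp
    obtain ⟨hj, hn⟩ := hp
    simp only at hj hn
    rw [hnd] at hn
    obtain ⟨hna, hnb⟩ := hn
    simp only
    rw [Set.Finite.mem_toFinset]
    have hv := hvt ((n : ℝ) + ((j : ℝ) / N + γ))
    have hne : tau ((n : ℝ) + ((j : ℝ) / N + γ)) ≠ b := by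
      intro h
      rw [h] at hv
      apply hγ (N * n + j)
      rw [hv]
      push_cast
      field_simp
      ring
    refine ⟨⟨lt_trans ha hna, ?_⟩, hna, lt_of_le_of_ne hnb hne⟩
    rw [hiff _ (lt_trans ha hna).le]
    refine ⟨N * n + j, ?_⟩
    rw [hv]
    push_cast
    field_simp
    ring
  · rintro ⟨j, n⟩ hp ⟨j', n'⟩ hp' heq
    rw [Finset.mem_sigma, Finset.mem_range] at hp hp'
    simp only at heq hp hp'
    have h5 := htm.injective heq
    have h6 : (N : ℝ) * n + j = N * n' + j' := by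
      have h7 : (N : ℝ) * ((n : ℝ) + ((j : ℝ) / N + γ)) = N * ((n' : ℝ) + ((j' : ℝ) / N + γ)) := by
        rw [h5]
      field_simp at h7
      linarith
    have h8 : (N : ℤ) * n + j = N * n' + j' := by exact_mod_cast h6
    have hj1 : ((j : ℤ)) % N = j := Int.emod_eq_of_lt (by positivity) (by exact_mod_cast hp.1)
    have hj2 : ((j' : ℤ)) % N = j' := Int.emod_eq_of_lt (by positivity) (by exact_mod_cast hp'.1)
    have h9 : (j : ℤ) = j' := by
      have e := congrArg (fun x : ℤ => x % N) h8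
      simp only [Int.mul_add_emod_self_left] at e
      rw [hj1, hj2] at e
      exact e
    have h10 : n = n' := by
      rw [h9] at h8
      exact mul_left_cancel₀ hNz (by linarith)
    have h11 : j = j' := by exact_mod_cast h9
    subst h10 h11
    rfl
  · intro t ht
    rw [Set.Finite.mem_toFinset] at ht
    obtain ⟨⟨ht1, ht2⟩, ht3, ht4⟩ := ht
    obtain ⟨m, hm⟩ := (hiff t ht1.le).1 ht2
    have hmod : 0 ≤ m % N := Int.emod_nonneg m hNz
    have hmodlt : m % N < N := Int.emod_lt_of_pos m (by exact_mod_cast hN)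
    have hjj : (((m % N).toNat : ℕ) : ℤ) = m % N := Int.toNat_of_nonneg hmod
    have hjr : (((m % N).toNat : ℕ) : ℝ) = ((m % N : ℤ) : ℝ) := by exact_mod_cast hjj
    have hval : ((m / N : ℤ) : ℝ) + ((((m % N).toNat : ℕ) : ℝ) / N + γ) = vv t := by
      rw [hjr]
      have e1 : ((N : ℤ) * (m / N) + m % N : ℤ) = m := Int.mul_ediv_add_emod m N
      have e2 : (N : ℝ) * ((m / N : ℤ) : ℝ) + ((m % N : ℤ) : ℝ) = m := by exact_mod_cast e1
      have e3 : (N : ℝ) * (((m / N : ℤ) : ℝ) + (((m % N : ℤ) : ℝ) / N + γ)) = N * vv t := by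
        have e4 : (N : ℝ) * (((m / N : ℤ) : ℝ) + (((m % N : ℤ) : ℝ) / N + γ)) =
            (N : ℝ) * ((m / N : ℤ) : ℝ) + ((m % N : ℤ) : ℝ) + N * γ := by
          field_simp
          ring
        rw [e4, e2]
        linarith
      exact mul_left_cancel₀ hN0 e3
    refine ⟨⟨(m % N).toNat, m / N⟩, ?_, ?_⟩
    · rw [Finset.mem_sigma, Finset.mem_range]
      refine ⟨?_, ?_⟩
      · simp only
        omega
      · simp only
        rw [hnd, hval, htv]
        exact ⟨ht3, ht4.le⟩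
    · simp only
      rw [hval, htv]
  · rintro ⟨j, n⟩ hp
    rw [Finset.mem_sigma, Finset.mem_range] at hp
    obtain ⟨hj, hn⟩ := hp
    simp only at hj hn ⊢
    rw [hnd] at hn
    rw [(hlam _ (lt_trans ha hn.1).le).1]

/-- real version -/
theorem real_bd (h1 : StTau) (h2 : StCo) (h3 : StLine) (N : ℕ) (f : ℝ → ℝ) (a b E M θ : ℝ) (hN : 1 ≤ N)
    (hf : Continuous f) (ha : 100 < a) (hab : a ≤ b)
    (hE : ∀ c : ℂ, ‖c‖ = 1 →
      |2 * Real.pi / N * (∑ᶠ t ∈ PP c N ∩ Ioo a b, f t / lam t) - M| ≤ E) :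
    ∫ t in a..b, f t * Real.cos (2 * Real.pi * N * vv t + θ) ≤ E := by
  have hseq := fun γ => sum_eq h1 h3 N hN f a b γ ha
  have hnc := norm_c h3 N
  obtain ⟨-, hcvv, hclam, hlam1, -, htv, hvt, htm, -, -, hX, hlam, hnd⟩ := h1
  have hlam0 : ∀ t, lamE t ≠ 0 := fun t => (lt_of_lt_of_le one_pos (hlam1 t)).ne'
  have hNpos : (0 : ℝ) < N := by exact_mod_cast hN
  have hN0 : (N : ℝ) ≠ 0 := hNpos.ne'
  have hE0 : 0 ≤ E := le_trans (abs_nonneg _) (hE 1 norm_one)
  obtain ⟨g, hg⟩ : ∃ g : ℝ → ℝ, g = fun γ => Real.cos (2 * Real.pi * N * γ + θ) := ⟨_, rfl⟩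
  obtain ⟨F, hF⟩ : ∃ F : ℝ → ℝ, F = fun t => f t / lamE t := ⟨_, rfl⟩
  obtain ⟨Φ, hΦ⟩ : ∃ Φ : ℝ → ℝ, Φ = fun γ => ∑ n ∈ nd γ a b, F (tau (n + γ)) := ⟨_, rfl⟩
  have hgc : Continuous g := by
    rw [hg]
    fun_prop
  have hFc : Continuous F := by
    rw [hF]
    exact hf.div hclam hlam0
  have hΦi : IntervalIntegrable Φ volume 0 1 := by
    rw [hΦ]
    exact (h2 F a b hFc ha.le hab).1
  obtain ⟨hi2, he2⟩ := h2 (fun t => F t * g (vv t)) a b (hFc.mul (hgc.comp hcvv)) ha.le hab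
  have e1 : (fun γ : ℝ => ∑ n ∈ nd γ a b, F (tau (n + γ)) * g (vv (tau (n + γ)))) =
      fun γ => Φ γ * g γ := by
    funext γ
    rw [hΦ]
    simp only [Finset.sum_mul, hvt]
    apply Finset.sum_congr rfl
    intro n _
    congr 1
    rw [hg]
    simp only
    have : 2 * Real.pi * N * (n + γ) + θ =
        (2 * Real.pi * N * γ + θ) + ((N * n : ℤ) : ℝ) * (2 * Real.pi) := by
      push_cast
      ring
    rw [this, Real.cos_add_int_mul_two_pi]
  have e2 : ∫ t in a..b, F t * g (vv t) * lamE t = ∫ t in a..b, f t * g (vv t) := by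
    congr 1
    funext t
    rw [hF]
    simp only
    have := hlam0 t
    field_simp
  have hpi : (Real.pi : ℝ) ≠ 0 := Real.pi_ne_zero
  have e3 : ∫ t in a..b, f t * g (vv t) = 2 * Real.pi * ∫ γ in (0:ℝ)..1, Φ γ * g γ := by
    rw [e2, e1] at he2
    rw [he2]
    field_simp
  have hgper : ∀ (j : ℕ) (x : ℝ), g ((j : ℝ) / N + x) = g x := by
    intro j x
    rw [hg]
    simp only
    have : 2 * Real.pi * N * ((j : ℝ) / N + x) + θ =
        (2 * Real.pi * N * x + θ) + ((j : ℤ) : ℝ) * (2 * Real.pi) := by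
      push_cast
      field_simp
      ring
    rw [this, Real.cos_add_int_mul_two_pi]
  have hsub : ∀ k : ℕ, k < N → IntervalIntegrable Φ volume ((k : ℝ) / N) (((k + 1 : ℕ) : ℝ) / N) := by
    intro k hk
    apply hΦi.mono_set
    rw [uIcc_of_le (by positivity : (0:ℝ) ≤ 1)]
    have hk1 : (((k + 1 : ℕ) : ℝ) / N) ≤ 1 := by
      rw [div_le_one hNpos]
      exact_mod_cast hk
    have hk2 : (k : ℝ) / N ≤ ((k + 1 : ℕ) : ℝ) / N := by
      apply div_le_div_of_nonneg_right _ hNpos.le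
      push_cast
      linarith
    rw [uIcc_of_le hk2]
    exact Icc_subset_Icc (by positivity) hk1
  have hsub2 : ∀ k : ℕ, k < N → IntervalIntegrable (fun x => Φ ((k : ℝ) / N + x)) volume 0 (1 / N) := by
    intro k hk
    have h := (hsub k hk).comp_add_left ((k : ℝ) / N)
    have e : ((k + 1 : ℕ) : ℝ) / N - (k : ℝ) / N = 1 / N := by
      push_cast
      ring
    rw [sub_self, e] at h
    exact h
  have hsub3 : ∀ k : ℕ, k < N →
      IntervalIntegrable (fun x => Φ ((k : ℝ) / N + x) * g x) volume 0 (1 / N) := by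
    intro k hk
    exact (hsub2 k hk).mul_continuousOn hgc.continuousOn
  have e4 : ∫ γ in (0:ℝ)..1, Φ γ * g γ =
      ∫ γ in (0:ℝ)..(1 / N), (∑ j ∈ Finset.range N, Φ ((j : ℝ) / N + γ)) * g γ := by
    have h5 := intervalIntegral.sum_integral_adjacent_intervals (f := fun γ => Φ γ * g γ)
      (μ := volume) (a := fun k : ℕ => (k : ℝ) / N) (n := N)
      (fun k hk => (hsub k hk).mul_continuousOn hgc.continuousOn)
    simp only [Nat.cast_zero, zero_div, div_self hN0] at h5
    rw [← h5]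
    simp only [Finset.sum_mul]
    rw [intervalIntegral.integral_finsetSum
      (fun i hi => hsub3 i (Finset.mem_range.1 hi))]
    apply Finset.sum_congr rfl
    intro k hk
    have h6 := intervalIntegral.integral_comp_add_left (a := (0 : ℝ)) (b := 1 / N)
      (fun γ => Φ γ * g γ) ((k : ℝ) / N)
    simp only [hgper] at h6
    rw [h6, add_zero]
    congr 1
    push_cast
    ring
  obtain ⟨S, hS⟩ : ∃ S : ℝ → ℝ, S = fun γ => ∑ j ∈ Finset.range N, Φ ((j : ℝ) / N + γ) := ⟨_, rfl⟩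
  have hSi : IntervalIntegrable (fun γ => S γ * g γ) volume 0 (1 / N) := by
    have h := IntervalIntegrable.sum (Finset.range N) (f := fun (k : ℕ) (x : ℝ) => Φ ((k : ℝ) / N + x) * g x)
      (μ := volume) (a := 0) (b := 1 / N) (fun i hi => hsub3 i (Finset.mem_range.1 hi))
    have e : (∑ i ∈ Finset.range N, fun x : ℝ => Φ ((i : ℝ) / N + x) * g x) = fun γ => S γ * g γ := by
      rw [hS]
      funext γ
      rw [Finset.sum_apply, Finset.sum_mul]
    rw [e] at h
    exact h
  have hg0 : ∫ γ in (0:ℝ)..(1 / N), g γ = 0 := by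
    rw [hg]
    have hc0 : (2 * Real.pi * N : ℝ) ≠ 0 := by positivity
    rw [intervalIntegral.integral_comp_mul_add (fun x => Real.cos x) hc0 θ, integral_cos]
    have : 2 * Real.pi * N * (1 / N) + θ = θ + 2 * Real.pi := by
      field_simp
      ring
    rw [this, Real.sin_add_two_pi, mul_zero, zero_add, sub_self, smul_zero]
  have hgi : IntervalIntegrable g volume 0 (1 / N) := hgc.intervalIntegrable _ _
  have e5 : ∫ t in a..b, f t * g (vv t) =
      ∫ γ in (0:ℝ)..(1 / N), N * (2 * Real.pi / N * S γ - M) * g γ := by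
    rw [e3, e4, ← intervalIntegral.integral_const_mul]
    have h7 : (fun γ => (N : ℝ) * (2 * Real.pi / N * S γ - M) * g γ) =
        fun γ => 2 * Real.pi * (S γ * g γ) - N * M * g γ := by
      funext γ
      field_simp
    rw [h7, intervalIntegral.integral_sub (hSi.const_mul _) (hgi.const_mul _),
      intervalIntegral.integral_const_mul (N * M), hg0, mul_zero, sub_zero, hS]
  have hae : ∀ᵐ γ : ℝ, γ ∈ Set.uIoc 0 (1 / (N : ℝ)) →
      ‖(N : ℝ) * (2 * Real.pi / N * S γ - M) * g γ‖ ≤ N * E := by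
    have hcount : (Set.range (fun m : ℤ => vv b - m / N)).Countable := Set.countable_range _
    have hz := hcount.measure_zero volume
    rw [← compl_compl (Set.range (fun m : ℤ => vv b - m / N)), ← mem_ae_iff] at hz
    filter_upwards [hz] with γ hγ _
    have hγ' : ∀ m : ℤ, (N : ℝ) * (vv b - γ) ≠ m := by
      intro m hm
      apply hγ
      refine ⟨m, ?_⟩
      simp only
      rw [← hm]
      field_simp
      ring
    have h8 := hseq γ hγ'
    have h9 : S γ = ∑ᶠ t ∈ PP (XX (cp 100) ^ N * cexp (2 * Real.pi * N * γ * I)) N ∩ Ioo a b,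
        f t / lam t := by
      rw [h8, hS, hΦ, hF]
    rw [norm_mul, norm_mul, Real.norm_eq_abs, Real.norm_eq_abs, Real.norm_eq_abs, abs_of_pos hNpos, h9]
    have h10 := hE _ (hnc γ)
    have h11 : |g γ| ≤ 1 := by
      rw [hg]
      exact Real.abs_cos_le_one _
    calc (N : ℝ) * |2 * Real.pi / N * (∑ᶠ t ∈ PP (XX (cp 100) ^ N * cexp (2 * Real.pi * N * γ * I)) N ∩ Ioo a b,
        f t / lam t) - M| * |g γ| ≤ (N : ℝ) * E * 1 := by
          apply mul_le_mul _ h11 (abs_nonneg _) (by positivity)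
          exact mul_le_mul_of_nonneg_left h10 hNpos.le
      _ = N * E := mul_one _
  have hfin := intervalIntegral.norm_integral_le_of_norm_le_const_ae hae
  have h12 : ∫ t in a..b, f t * Real.cos (2 * Real.pi * N * vv t + θ) = ∫ t in a..b, f t * g (vv t) := by
    rw [hg]
  rw [h12, e5]
  refine le_trans (le_abs_self _) ?_
  rw [← Real.norm_eq_abs]
  refine le_trans hfin ?_
  rw [sub_zero, abs_of_pos (by positivity)]
  apply le_of_eq
  field_simp

theorem em_coav (h1 : Pool.Agent.W188.GP.StTau) (h2 : Pool.Agent.W188.GP.StCo)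
    (h3 : Pool.Agent.W188.QS.StLine) : Pool.Agent.W188.EM.StCoav := by
  intro N f a b E M hN hf ha hab hE
  have hbd := fun θ => real_bd h1 h2 h3 N f a b E M θ hN hf ha hab hE
  have hn : ‖XX (cp 100)‖ = 1 := h3.2.1 100
  obtain ⟨-, hcvv, -, -, -, -, -, -, -, -, hX, -, -⟩ := h1
  have hg : Continuous (fun t => (f t : ℂ) * cexp ((2 * Real.pi * N * vv t : ℝ) * I)) := by
    fun_prop
  have e1 : ∫ t in a..b, (f t : ℂ) * XX (cp t) ^ N =
      XX (cp 100) ^ N * ∫ t in a..b, (f t : ℂ) * cexp ((2 * Real.pi * N * vv t : ℝ) * I) := by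
    rw [← intervalIntegral.integral_const_mul]
    apply intervalIntegral.integral_congr
    intro t ht
    rw [uIcc_of_le hab] at ht
    simp only
    rw [hX t (by linarith [ht.1]), mul_pow, ← Complex.exp_nat_mul]
    have : (N : ℂ) * (2 * Real.pi * vv t * I) = ((2 * Real.pi * N * vv t : ℝ) : ℂ) * I := by
      push_cast
      ring
    rw [this]
    ring
  rw [e1, norm_mul, norm_pow, hn, one_pow, one_mul]
  set z := ∫ t in a..b, (f t : ℂ) * cexp ((2 * Real.pi * N * vv t : ℝ) * I) with hz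
  have e2 : ‖z‖ = (cexp ((-z.arg : ℝ) * I) * z).re := by
    have h5 : cexp ((-z.arg : ℝ) * I) * ((‖z‖ : ℂ) * cexp (z.arg * I)) = (‖z‖ : ℂ) := by
      calc cexp ((-z.arg : ℝ) * I) * ((‖z‖ : ℂ) * cexp (z.arg * I)) =
          (‖z‖ : ℂ) * (cexp ((-z.arg : ℝ) * I) * cexp (z.arg * I)) := by ring
        _ = (‖z‖ : ℂ) := by
          rw [← Complex.exp_add]
          push_cast
          rw [neg_mul, neg_add_cancel, Complex.exp_zero, mul_one]
    rw [Complex.norm_mul_exp_arg_mul_I] at h5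
    rw [h5, Complex.ofReal_re]
  have e3 : (cexp ((-z.arg : ℝ) * I) * z).re =
      ∫ t in a..b, f t * Real.cos (2 * Real.pi * N * vv t + -z.arg) := by
    conv_lhs => rw [hz]
    rw [← intervalIntegral.integral_const_mul]
    have h6 : Continuous (fun t => cexp ((-z.arg : ℝ) * I) *
        ((f t : ℂ) * cexp ((2 * Real.pi * N * vv t : ℝ) * I))) := continuous_const.mul hg
    have h7 := Complex.reCLM.intervalIntegral_comp_comm (h6.intervalIntegrable (μ := volume) a b)
    rw [Complex.reCLM_apply] at h7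
    rw [← h7]
    congr 1
    funext t
    rw [Complex.reCLM_apply]
    have h8 : cexp ((-z.arg : ℝ) * I) * ((f t : ℂ) * cexp ((2 * Real.pi * N * vv t : ℝ) * I)) =
        (f t : ℂ) * cexp ((2 * Real.pi * N * vv t + -z.arg : ℝ) * I) := by
      calc cexp ((-z.arg : ℝ) * I) * ((f t : ℂ) * cexp ((2 * Real.pi * N * vv t : ℝ) * I)) =
          (f t : ℂ) * (cexp ((-z.arg : ℝ) * I) * cexp ((2 * Real.pi * N * vv t : ℝ) * I)) := by ring
        _ = _ := by
          rw [← Complex.exp_add]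
          congr 2
          push_cast
          ring
    rw [h8, Complex.re_ofReal_mul, Complex.exp_ofReal_mul_I_re]
  rw [e2, e3]
  exact hbd _

end Pool.Agent.W168.EM
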